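import Pool.Agent.Helper743.KTFin

set_option autoImplicit false

/-!
# A K-trivial set which is not below all almost complete sets below the halting problem

Q1 of MP_95c08c_lc asks whether every K-trivial set is computable from every `Δ⁰₂` almost complete
set. The answer is no, even for computably enumerable K-trivial sets: for every noncomputable
computably enumerable K-trivial set `A` there is a set `B <_T 0'` such that the halting problem is
K-trivial relative to `B` and `A` is not computable from `B`; and there are noncomputable computably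
enumerable K-trivial sets.
-/

namespace Pool.Agent.Results.MP_95c08c_lc.NotBelowAll

open Pool.Agent.Helper743 Pool.Agent.Helper743.KT Nat.Partrec

/-- `A` is Turing reducible to `B`, for sets given by their characteristic functions. -/
def Below (A B : ℕ → Bool) : Prop :=
  TuringReducible (fun n => Part.some (A n).toNat : ℕ →. ℕ)
    (fun n => Part.some (B n).toNat : ℕ →. ℕ)

/-- `f` is upper semicomputable relative to the set `B`: the set of the pairs `(n, k)` with
`f n ≤ k` is the domain of a function that is partial computable relative to `B`. -/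
def UpperSemi (B : ℕ → Bool) (f : ℕ → ℕ) : Prop :=
  ∃ φ : ℕ →. ℕ, TuringReducible φ (fun n => Part.some (B n).toNat : ℕ →. ℕ) ∧
    ∀ n k : ℕ, (φ (Nat.pair n k)).Dom ↔ f n ≤ k

/-- All finite sums of the numbers `2 ^ (- f n)` are at most `1`. -/
def KraftSum (f : ℕ → ℕ) : Prop := ∀ s : Finset ℕ, ∑ n ∈ s, (1 / 2 : ℝ) ^ f n ≤ 1

/-- `κ` is (a version of) prefix-free Kolmogorov complexity relative to `B`, on natural numbers:
the least function up to an additive constant among the functions which are upper semicomputable
relative to `B` and satisfy the Kraft inequality. -/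
def IsComplexity (B : ℕ → Bool) (κ : ℕ → ℕ) : Prop :=
  UpperSemi B κ ∧ KraftSum κ ∧
    ∀ f : ℕ → ℕ, UpperSemi B f → KraftSum f → ∃ c : ℕ, ∀ n, κ n ≤ f n + c

/-- `X` is K-trivial relative to `B`: the complexity relative to `B` of the string of the first
`n` bits of `X` exceeds the complexity relative to `B` of `n` by at most a constant, for every
version `κ` of the complexity relative to `B`; and there is such a `κ`. Strings are coded by natural
numbers in the standard way. -/
def KTrivialRel (X B : ℕ → Bool) : Prop :=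
  (∃ κ : ℕ → ℕ, IsComplexity B κ) ∧
  ∀ κ : ℕ → ℕ, IsComplexity B κ →
    ∃ c : ℕ, ∀ n : ℕ, κ (Encodable.encode (List.ofFn (fun i : Fin n => X i))) ≤ κ n + c

/-- `X` is K-trivial: K-trivial relative to the empty set. -/
def KTrivial (X : ℕ → Bool) : Prop := KTrivialRel X (fun _ => false)

/-- The halting problem. -/
noncomputable def haltingSet (n : ℕ) : Bool :=
  open Classical in decide (Code.eval (Denumerable.ofNat Code n) n).Dom

/-- `B` is almost complete: the halting problem is K-trivial relative to `B`. -/
def AlmostComplete (B : ℕ → Bool) : Prop := KTrivialRel haltingSet B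

/-- `A` is computably enumerable. -/
def IsCE (A : ℕ → Bool) : Prop := REPred fun n => A n = true

theorem upS_iff (B : ℕ → Bool) (f : ℕ → ℕ) : UpperSemi B f ↔ UpS (fun n => (B n).toNat) f := by
  constructor
  · rintro ⟨φ, h1, h2⟩
    exact ⟨φ, RecursiveIn.iff_nat.1 h1, h2⟩
  · rintro ⟨φ, h1, h2⟩
    exact ⟨φ, RecursiveIn.iff_nat.2 h1, h2⟩

theorem opt_iff (B : ℕ → Bool) (κ : ℕ → ℕ) : IsComplexity B κ ↔ Opt (fun n => (B n).toNat) κ := by
  unfold IsComplexity Opt
  simp only [upS_iff]
  rfl

theorem below_iff (A B : ℕ → Bool) :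
    Below A B ↔ TR (fun n => (A n).toNat) (fun n => (B n).toNat) := TR_iff.symm

/-- K-triviality relative to `B`, from the optimal function of an equivalent oracle `G` -/
theorem ktrivial_of {G : ℕ → ℕ} {B X : ℕ → Bool} (h1 : TR G (fun n => (B n).toNat))
    (h2 : TR (fun n => (B n).toNat) G)
    (h : ∃ c, ∀ n, KG G (Encodable.encode (List.ofFn (fun i : Fin n => X i))) ≤ KG G n + c) :
    KTrivialRel X B := by
  have hopt : Opt (fun n => (B n).toNat) (KG G) := Opt_of_TR h1 h2 (Opt_KG G)
  refine ⟨⟨KG G, (opt_iff _ _).2 hopt⟩, fun κ hκ => ?_⟩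
  rw [opt_iff] at hκ
  obtain ⟨c, hc⟩ := h
  obtain ⟨c1, hc1⟩ := hκ.2.2 (KG G) hopt.1 hopt.2.1
  obtain ⟨c2, hc2⟩ := hopt.2.2 κ hκ.1 hκ.2.1
  refine ⟨c1 + c + c2, fun n => ?_⟩
  have a1 := hc1 (Encodable.encode (List.ofFn (fun i : Fin n => X i)))
  have a2 := hc n
  have a3 := hc2 n
  omega

theorem haltingSet_toNat : (fun n => (haltingSet n).toNat) = K0 := by
  funext n
  unfold haltingSet K0
  by_cases h : (Code.eval (Denumerable.ofNat Code n) n).Dom <;> simp [h]

/-- the noncomputable computably enumerable K-trivial set -/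
noncomputable def triv (n : ℕ) : Bool := open Classical in decide (inA n)

theorem triv_ktrivial : KTrivial triv := by
  have hid : TR (fun m => m) (fun n => ((fun _ => false : ℕ → Bool) n).toNat) :=
    Computable.recT Computable.id
  have hc : TR (fun n => ((fun _ => false : ℕ → Bool) n).toNat) (fun m => m) :=
    Computable.recT (Computable.const 0)
  refine ktrivial_of hid hc ?_
  obtain ⟨c, hc⟩ := inA_triv
  refine ⟨c, fun n => ?_⟩
  have h := hc n
  have e : XA n = List.ofFn (fun i : Fin n => triv i) := by
    unfold XA triv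
    apply List.ext_getElem
    · simp
    · intro i h1 h2
      simp
  rwa [e] at h

theorem triv_ce : IsCE triv := by
  have h := inA_re
  unfold IsCE
  refine h.of_eq fun n => ?_
  simp [triv]

theorem triv_not_computable : ¬ Computable triv := by
  intro h
  apply KT.not_computable
  have h2 : Computable fun n => (triv n).toNat :=
    (Primrec.dom_bool Bool.toNat).to_comp.comp h
  refine h2.of_eq fun n => ?_
  unfold triv chiA chi
  by_cases hn : inA n <;> simp [hn]

/-- the main step -/
theorem exists_almostComplete (A : ℕ → Bool) (hce : IsCE A) (hnc : ¬ Computable A) :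
    ∃ B : ℕ → Bool, Below B haltingSet ∧ ¬ Below haltingSet B ∧ AlmostComplete B ∧
      ¬ Below A B := by
  classical
  obtain ⟨φ0, hφ0, hA⟩ : ∃ φ : ℕ →. ℕ, Nat.Partrec φ ∧ ∀ n, (φ n).Dom ↔ A n = true := by
    have h : Partrec fun n : ℕ => Part.assert (A n = true) fun _ => Part.some () := hce
    refine ⟨_, Partrec.nat_iff.1 (h.map (Computable.const 0).to₂), fun n => ?_⟩
    simp [Part.assert, Part.map]
  obtain ⟨c, hc⟩ := Code.exists_code.1 hφ0
  -- the index of `A`
  obtain ⟨a, ha⟩ : ∃ a, a = Encodable.encode c := ⟨_, rfl⟩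
  have hWA : AC.WA a = fun n => (A n).toNat := by
    funext n
    unfold AC.WA K
    rw [Nat.unpair_pair, ha, Denumerable.ofNat_encode, hc]
    by_cases h : A n = true
    · rw [if_pos ((hA n).2 h), h]; rfl
    · rw [if_neg (fun h1 => h ((hA n).1 h1))]
      rw [Bool.not_eq_true] at h
      rw [h]; rfl
  have hnc' : ¬ Computable (AC.WA a) := by
    intro h
    apply hnc
    have h2 : Primrec (fun n : ℕ => decide (n = 1)) :=
      (PrimrecPred.decide (p := fun n : ℕ => n = 1) (Primrec.eq.comp Primrec.id
        (Primrec.const 1)))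
    refine (h2.to_comp.comp h).of_eq ?_
    intro n
    rw [hWA]
    beta_reduce
    cases A n <;> decide
  have hAK0 : TR (fun n => (A n).toNat) K0 := by
    rw [← hWA]
    have h1 : Primrec (fun n : ℕ => Nat.pair a n) :=
      Primrec₂.natPair.comp (Primrec.const a) Primrec.id
    exact TR.trans ((TR.refl K).comp (Computable.recT (O := {(K : ℕ →. ℕ)}) h1.to_comp)) K_TR_K0
  have havoid : ¬ TR (fun n => (A n).toNat) (fun n => (gr (AC.GG a) n).toNat) := by
    intro h
    apply AC.avoids a hnc'
    rw [hWA]
    exact TR.trans h (gr_TR _)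
  refine ⟨gr (AC.GG a), ?_, ?_, ?_, ?_⟩
  · rw [below_iff, haltingSet_toNat]
    exact TR.trans (gr_TR _) (TR.trans (AC.limC_GG a).TR_K K_TR_K0)
  · rw [below_iff, haltingSet_toNat]
    exact fun h => havoid (TR.trans hAK0 h)
  · refine ktrivial_of (TR_gr (AC.GG a)) (gr_TR (AC.GG a)) ?_
    obtain ⟨c', hc'⟩ := halting_triv a
    refine ⟨c', fun n => ?_⟩
    have h := hc' n
    have e : AC.kstr n = List.ofFn (fun i : Fin n => haltingSet i) := kstr_eq n
    rwa [e] at h
  · rw [below_iff]
    exact havoid

/-- The answer to Q1 is no. (1) There are a computably enumerable K-trivial set `A` and an almost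
complete set `B <_T 0'` such that `A` is not computable from `B`. (2) There are noncomputable
computably enumerable K-trivial sets, and for every such set `A` there is a `B` as in (1). -/
theorem result :
    (∃ A B : ℕ → Bool, KTrivial A ∧ IsCE A ∧ Below B haltingSet ∧ ¬ Below haltingSet B ∧
      AlmostComplete B ∧ ¬ Below A B) ∧
    (∃ A : ℕ → Bool, KTrivial A ∧ IsCE A ∧ ¬ Computable A) ∧
    ∀ A : ℕ → Bool, KTrivial A → IsCE A → ¬ Computable A →
      ∃ B : ℕ → Bool, Below B haltingSet ∧ ¬ Below haltingSet B ∧ AlmostComplete B ∧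
        ¬ Below A B := by
  refine ⟨?_, ⟨triv, triv_ktrivial, triv_ce, triv_not_computable⟩,
    fun A _ h1 h2 => exists_almostComplete A h1 h2⟩
  obtain ⟨B, h1, h2, h3, h4⟩ := exists_almostComplete triv triv_ce triv_not_computable
  exact ⟨triv, B, triv_ktrivial, triv_ce, h1, h2, h3, h4⟩

end Pool.Agent.Results.MP_95c08c_lc.NotBelowAll
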